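import Mathlib
import Pool.Agent.H395R6.BA6

/-!
The Diophantine problem with abelianisation constraints is undecidable for `BS(1,2)`.
-/

set_option autoImplicit false

namespace Pool.Agent.Results.MP_184b96_al.DPabUndecidableBS12

/-- the relator `t a t⁻¹ a⁻ⁿ` of `BS(1,n)`; `a` is generator `0` and `t` is generator `1` -/
def bsRelator (n : ℤ) : FreeGroup (Fin 2) :=
  FreeGroup.of 1 * FreeGroup.of 0 * (FreeGroup.of 1)⁻¹ * (FreeGroup.of 0 ^ n)⁻¹

/-- the group `⟨a, t ∣ r⟩` -/
abbrev Grp (r : FreeGroup (Fin 2)) : Type := PresentedGroup ({r} : Set (FreeGroup (Fin 2)))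

/-- words in the two generators (constants) and in the variables `x₀, x₁, …`; the flag `false`
marks inverses -/
abbrev Word : Type := List ((Fin 2 ⊕ ℕ) × Bool)

/-- the value in `⟨a, t ∣ r⟩` of a word when the variables are given the values `f` -/
def value (r : FreeGroup (Fin 2)) (f : ℕ → Grp r) (w : Word) : Grp r :=
  FreeGroup.lift (Sum.elim (fun i : Fin 2 => (PresentedGroup.of i : Grp r)) f) (FreeGroup.mk w)

/-- the value of a word in the abelianisation, the generators standing for their images -/
def abValue (r : FreeGroup (Fin 2)) (f : ℕ → Abelianization (Grp r)) (w : Word) :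
    Abelianization (Grp r) :=
  FreeGroup.lift (Sum.elim
    (fun i : Fin 2 => Abelianization.of (PresentedGroup.of i : Grp r)) f) (FreeGroup.mk w)

/-- the finite system `S.1` of equations over the group together with the finite system `S.2` of
equations over the abelianisation is solvable -/
def Solvable (r : FreeGroup (Fin 2)) (S : List Word × List Word) : Prop :=
  ∃ f : ℕ → Grp r, (∀ w ∈ S.1, value r f w = 1) ∧
    (∀ w ∈ S.2, abValue r (fun k => Abelianization.of (f k)) w = 1)

/-- The Diophantine problem with abelianisation constraints is undecidable for `BS(1,2)`. -/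
theorem result : ¬ ComputablePred (Solvable (bsRelator 2)) := by
  have e : bsRelator 2 = Pool.Agent.H395R6.rel := by
    unfold bsRelator Pool.Agent.H395R6.rel
    rw [zpow_two, mul_inv_rev]
    group
  rw [e]
  intro h
  apply Pool.Agent.H395R6.undecidable
  refine ComputablePred.computable_of_manyOneReducible ?_ h
  refine ⟨fun S => (S, []), (Primrec.pair Primrec.id (Primrec.const [])).to_comp, fun S => ?_⟩
  unfold Solvable
  simp only [List.not_mem_nil, false_implies, implies_true, and_true]
  rfl

end Pool.Agent.Results.MP_184b96_al.DPabUndecidableBS12
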